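import Pool.Agent.H21.BT.Targets

/-!
# Bessel's inequality for tuples of exponentials: the number of the exceptional primes
-/

set_option autoImplicit false

open Finset Pool.Agent.H6.N4D Pool.Agent.H21.BS Pool.Agent.H21.BT

namespace Pool.Agent.H88.BT

/-- three primes whose 200th powers are at most `N` -/
theorem key {N q p p' : ℕ} (hq2 : 2 ≤ q) (h1 : q ^ 200 ≤ N) (h2 : p ^ 200 ≤ N)
    (h3 : p' ^ 200 ≤ N) :
    2 * ((q * p * p' : ℕ) : ℝ) * (N : ℝ) ^ (-(1 / 2) : ℝ) < 1 := by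
  obtain ⟨D, hD⟩ : ∃ D, D = q * p * p' := ⟨_, rfl⟩
  rw [← hD]
  have hN2 : 2 ^ 200 ≤ N := (Nat.pow_le_pow_left hq2 200).trans h1
  have hN0 : 0 < N := lt_of_lt_of_le (by positivity) hN2
  have hD3 : D ^ 200 ≤ N ^ 3 := by
    rw [hD, mul_pow, mul_pow]
    calc q ^ 200 * p ^ 200 * p' ^ 200 ≤ N * N * N :=
          Nat.mul_le_mul (Nat.mul_le_mul h1 h2) h3
      _ = N ^ 3 := by ring
  have hlt : 4 * D ^ 2 < N := by
    by_contra hcon
    rw [not_lt] at hcon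
    have a1 : N ^ 100 ≤ (4 * D ^ 2) ^ 100 := Nat.pow_le_pow_left hcon 100
    have a2 : (4 * D ^ 2) ^ 100 = 2 ^ 200 * D ^ 200 := by
      rw [mul_pow, ← pow_mul]
      norm_num
    have a3 : N ^ 97 * N ^ 3 ≤ 2 ^ 200 * N ^ 3 := by
      rw [← pow_add]
      calc N ^ (97 + 3) = N ^ 100 := rfl
        _ ≤ 2 ^ 200 * D ^ 200 := a1.trans a2.le
        _ ≤ 2 ^ 200 * N ^ 3 := Nat.mul_le_mul_left _ hD3
    have a4 : N ^ 97 ≤ 2 ^ 200 := Nat.le_of_mul_le_mul_right a3 (pow_pos hN0 3)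
    have a5 : N ^ 97 = N ^ 2 * N ^ 95 := by rw [← pow_add]
    have a6 : N ^ 2 ≤ N ^ 97 := by
      rw [a5]
      exact Nat.le_mul_of_pos_right _ (pow_pos hN0 95)
    have a7 : N * 2 ≤ N ^ 2 := by
      rw [pow_two]
      refine Nat.mul_le_mul_left _ (le_trans ?_ hN2)
      norm_num
    have a8 : N * 2 ≤ N := a7.trans (a6.trans (a4.trans hN2))
    omega
  have hNr : (0 : ℝ) < N := by exact_mod_cast hN0
  have hltr : 4 * (D : ℝ) ^ 2 < N := by exact_mod_cast hlt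
  rw [Real.rpow_neg hNr.le, ← Real.sqrt_eq_rpow, ← div_eq_mul_inv,
    div_lt_one (Real.sqrt_pos.2 hNr)]
  refine Real.lt_sqrt_of_sq_lt ?_
  have e1 : (2 * (D : ℝ)) ^ (2 : ℕ) = 4 * (D : ℝ) ^ (2 : ℕ) := by ring
  rw [e1]
  exact hltr

/-- at most one prime has a fraction which makes the frequency small -/
theorem one_prime {N q p p' : ℕ} (hq : q.Prime) (hp : p.Prime) (hp' : p'.Prime)
    (h1 : q ^ 200 ≤ N) (h2 : p ^ 200 ≤ N) (h3 : p' ^ 200 ≤ N) (hpq : p ≠ q) (hpp : p ≠ p')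
    (γ : ℝ) (b c b' c' : ℤ) (hc : ¬ ((p : ℤ) ∣ c))
    (h4 : nd (γ - (b : ℝ) / q - (c : ℝ) / p) ≤ (N : ℝ) ^ (-(1 / 2) : ℝ))
    (h5 : nd (γ - (b' : ℝ) / q - (c' : ℝ) / p') ≤ (N : ℝ) ^ (-(1 / 2) : ℝ)) : False := by
  have hkey := key hq.two_le h1 h2 h3
  have hq0 : (q : ℝ) ≠ 0 := by exact_mod_cast hq.ne_zero
  have hp0 : (p : ℝ) ≠ 0 := by exact_mod_cast hp.ne_zero
  have hp'0 : (p' : ℝ) ≠ 0 := by exact_mod_cast hp'.ne_zero
  have a1 := nd_sub_le (γ - (b : ℝ) / q - (c : ℝ) / p) (γ - (b' : ℝ) / q - (c' : ℝ) / p')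
  obtain ⟨k, hk⟩ := exists_int
    (γ - (b : ℝ) / q - (c : ℝ) / p - (γ - (b' : ℝ) / q - (c' : ℝ) / p'))
  rw [← hk] at a1
  have hD : (0 : ℝ) < ((q * p * p' : ℕ) : ℝ) := by
    exact_mod_cast Nat.mul_pos (Nat.mul_pos hq.pos hp.pos) hp'.pos
  have a2 : |(((b' - b) * p * p' + c' * q * p - c * q * p' - q * p * p' * k : ℤ) : ℝ)| < 1 := by
    have e1 : (((b' - b) * p * p' + c' * q * p - c * q * p' - q * p * p' * k : ℤ) : ℝ) =
        ((q * p * p' : ℕ) : ℝ) *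
        (γ - (b : ℝ) / q - (c : ℝ) / p - (γ - (b' : ℝ) / q - (c' : ℝ) / p') - k) := by
      push_cast
      field_simp
      ring
    rw [e1, abs_mul, abs_of_pos hD]
    refine lt_of_le_of_lt (mul_le_mul_of_nonneg_left
      (a1.trans (add_le_add h4 h5)) hD.le) ?_
    linarith
  have a3 : |(b' - b) * (p : ℤ) * p' + c' * q * p - c * q * p' - q * p * p' * k| < 1 := by
    exact_mod_cast a2
  rw [Int.abs_lt_one_iff] at a3
  have a4 : (p : ℤ) ∣ c * q * p' := by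
    refine ⟨(b' - b) * p' + c' * q - q * p' * k, ?_⟩
    linear_combination -a3
  have hpi : Prime (p : ℤ) := Nat.prime_iff_prime_int.1 hp
  rcases hpi.dvd_or_dvd a4 with a5 | a5
  · rcases hpi.dvd_or_dvd a5 with a6 | a6
    · exact hc a6
    · exact hpq ((Nat.prime_dvd_prime_iff_eq hp hq).1 (Int.natCast_dvd_natCast.1 a6))
  · exact hpp ((Nat.prime_dvd_prime_iff_eq hp hp').1 (Int.natCast_dvd_natCast.1 a5))

/-- **the number of the exceptional primes** -/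
theorem pf_EXC : T_EXC := by
  classical
  intro W A P V hV q hq
  obtain ⟨B, hB⟩ : ∃ B : ℕ × ℕ → Finset ℕ, B = fun x => V.Q.filter fun p => p ≠ q ∧
      ∃ b c : ℤ, ¬ ((p : ℤ) ∣ c) ∧
        nd (V.α x.1 q - V.α x.2 q - (b : ℝ) / q - (c : ℝ) / p) ≤
          (V.N : ℝ) ^ (-(1 / 2) : ℝ) := ⟨_, rfl⟩
  have hcard : ∀ x, (B x).card ≤ 1 := by
    intro x
    rw [Finset.card_le_one]
    intro p hp p' hp'
    rw [hB] at hp hp'
    rw [Finset.mem_filter] at hp hp'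
    obtain ⟨hpQ, hpq, b, c, hc, h4⟩ := hp
    obtain ⟨hpQ', hpq', b', c', hc', h5⟩ := hp'
    by_contra hpp
    exact one_prime (hV.pr q hq) (hV.pr p hpQ) (hV.pr p' hpQ') (hV.up q hq) (hV.up p hpQ)
      (hV.up p' hpQ') hpq hpp _ b c b' c' hc h4 h5
  refine le_trans (Nat.cast_le.2 ((Finset.card_le_card
    (t := (range V.k ×ˢ range V.k).biUnion B) ?_).trans Finset.card_biUnion_le)) ?_
  · intro p hp
    rw [Finset.mem_filter] at hp
    obtain ⟨hpQ, hpq, r, hr, r', hr', b, c, hc, h⟩ := hp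
    rw [Finset.mem_biUnion]
    refine ⟨(r, r'), Finset.mem_product.2 ⟨Finset.mem_range.2 hr, Finset.mem_range.2 hr'⟩, ?_⟩
    rw [hB]
    exact Finset.mem_filter.2 ⟨hpQ, hpq, b, c, hc, h⟩
  · have h1 : ∑ x ∈ range V.k ×ˢ range V.k, (B x).card ≤ V.k * V.k := by
      refine (Finset.sum_le_sum fun x _ => hcard x).trans ?_
      rw [Finset.sum_const, Finset.card_product, Finset.card_range, smul_eq_mul, mul_one]
    calc ((∑ x ∈ range V.k ×ˢ range V.k, (B x).card : ℕ) : ℝ) ≤ ((V.k * V.k : ℕ) : ℝ) :=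
          Nat.cast_le.2 h1
      _ = (V.k : ℝ) ^ 2 := by push_cast; ring

end Pool.Agent.H88.BT
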