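import Pool.Agent.H21.BT.Targets

/-!
# Bessel's inequality for tuples of exponentials: the kernel of two primes
-/

set_option autoImplicit false

open Finset Pool.Agent.H6.N4D Pool.Agent.H21.BS Pool.Agent.H21.BT

namespace Pool.Agent.H88.BT

/-- sums over a small family of frequencies which are not small -/
theorem small_family (hESM : T_ESM) (N a : ℕ) (hN : 1 ≤ N) (s : Finset (ℕ × ℕ))
    (f : ℕ × ℕ → ℝ) (h : ∀ i ∈ s, (N : ℝ) ^ (-(1 / 2) : ℝ) < nd (f i))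
    (hc : (s.card : ℝ) ≤ (N : ℝ) ^ (1 / 100 : ℝ)) :
    ‖∑ x ∈ range N, ∑ i ∈ s, ee (f i * ((a + x : ℕ) : ℝ))‖ ≤ (N : ℝ) ^ (3 / 5 : ℝ) := by
  have hN1 : (1 : ℝ) ≤ N := by exact_mod_cast hN
  have hN0 : (0 : ℝ) < N := by linarith
  have hpow : (0 : ℝ) < (N : ℝ) ^ (-(1 / 2) : ℝ) := Real.rpow_pos_of_pos hN0 _
  rw [Finset.sum_comm]
  have h1 : ∀ i ∈ s, ‖∑ x ∈ range N, ee (f i * ((a + x : ℕ) : ℝ))‖ ≤
      (N : ℝ) ^ (1 / 2 : ℝ) := by
    intro i hi
    have h2 := h i hi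
    have hbv : BV 0 a N fun _ => (1 : ℂ) := by
      refine ⟨fun _ => by simp, ?_⟩
      simp
    have h3 := hESM (f i) 0 a N (fun _ => 1) (hpow.trans h2) hbv
    rw [Finset.sum_congr rfl fun x _ => mul_one (ee (f i * ((a + x : ℕ) : ℝ)))] at h3
    refine h3.trans ?_
    rw [div_le_iff₀ (by linarith)]
    have h4 : (N : ℝ) ^ (1 / 2 : ℝ) * (N : ℝ) ^ (-(1 / 2) : ℝ) = 1 := by
      rw [← Real.rpow_add hN0]
      norm_num
    have h5 : (0 : ℝ) < (N : ℝ) ^ (1 / 2 : ℝ) := Real.rpow_pos_of_pos hN0 _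
    nlinarith [mul_lt_mul_of_pos_left h2 h5]
  refine (norm_sum_le _ _).trans ((Finset.sum_le_sum h1).trans ?_)
  rw [Finset.sum_const, nsmul_eq_mul]
  have h6 : (0 : ℝ) < (N : ℝ) ^ (1 / 2 : ℝ) := Real.rpow_pos_of_pos hN0 _
  calc (s.card : ℝ) * (N : ℝ) ^ (1 / 2 : ℝ) ≤ (N : ℝ) ^ (1 / 100 : ℝ) * (N : ℝ) ^ (1 / 2 : ℝ) :=
        mul_le_mul_of_nonneg_right hc h6.le
    _ = (N : ℝ) ^ (1 / 100 + 1 / 2 : ℝ) := (Real.rpow_add hN0 _ _).symm
    _ ≤ (N : ℝ) ^ (3 / 5 : ℝ) := Real.rpow_le_rpow_of_exponent_le hN1 (by norm_num)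

theorem root_le {q N : ℕ} (h : q ^ 200 ≤ N) : (q : ℝ) ≤ (N : ℝ) ^ (1 / 200 : ℝ) := by
  have h1 : ((q : ℝ) ^ 200) ≤ N := by exact_mod_cast h
  have h2 := Real.rpow_le_rpow (by positivity) h1 (show (0 : ℝ) ≤ 1 / 200 by norm_num)
  have h3 : ((q : ℝ) ^ 200) ^ (1 / 200 : ℝ) = q := by
    rw [← Real.rpow_natCast, ← Real.rpow_mul (Nat.cast_nonneg q)]
    norm_num
  rwa [h3] at h2

/-- **the kernel of two primes** -/
theorem pf_KRN (hDQF : T_DQF) (hESM : T_ESM) : T_KRN := by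
  intro N a q p γ hq hp hqN hpN hnd
  have hN : 1 ≤ N := le_trans (Nat.one_le_pow _ _ hq.pos) hqN
  have hN1 : (1 : ℝ) ≤ N := by exact_mod_cast hN
  have hN0 : (0 : ℝ) < N := by linarith
  obtain ⟨f, hf⟩ : ∃ f : ℕ × ℕ → ℝ, f = fun i => γ + (i.1 : ℝ) / q + (i.2 : ℝ) / p := ⟨_, rfl⟩
  have hfn : ∀ (i : ℕ × ℕ), i.2 ∈ Ico 1 p → (N : ℝ) ^ (-(1 / 2) : ℝ) < nd (f i) := by
    intro i hi
    rw [Finset.mem_Ico] at hi
    have h1 := hnd (-(i.1 : ℤ)) (-(i.2 : ℤ)) (by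
      rw [Int.dvd_neg]
      intro hd
      have h2 := Nat.le_of_dvd (by omega) (Int.natCast_dvd_natCast.1 hd)
      omega)
    have h3 : γ - ((-(i.1 : ℤ) : ℤ) : ℝ) / q - ((-(i.2 : ℤ) : ℤ) : ℝ) / p = f i := by
      rw [hf]
      push_cast
      ring
    rwa [h3] at h1
  have hqr := root_le hqN
  have hpr := root_le hpN
  have hprod : (q : ℝ) * p ≤ (N : ℝ) ^ (1 / 100 : ℝ) := by
    calc (q : ℝ) * p ≤ (N : ℝ) ^ (1 / 200 : ℝ) * (N : ℝ) ^ (1 / 200 : ℝ) :=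
          mul_le_mul hqr hpr (Nat.cast_nonneg p) (Real.rpow_nonneg hN0.le _)
      _ = (N : ℝ) ^ (1 / 100 : ℝ) := by
          rw [← Real.rpow_add hN0]
          norm_num
  have hp1 : (p : ℝ) ≤ (N : ℝ) ^ (1 / 100 : ℝ) :=
    hpr.trans (Real.rpow_le_rpow_of_exponent_le hN1 (by norm_num))
  have hIcop : (((Ico 1 p).card : ℕ) : ℝ) ≤ p := by
    rw [Nat.card_Ico]
    exact_mod_cast Nat.sub_le _ _
  have hdqp : ∀ n, DD p n * ee (γ * (n : ℝ)) =
      ∑ c ∈ Ico 1 p, ee ((γ + (c : ℝ) / p) * (n : ℝ)) := by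
    intro n
    rw [hDQF p n hp.one_le, Finset.sum_mul]
    refine Finset.sum_congr rfl fun c _ => ?_
    rw [← ee_add]
    congr 1
    ring
  have hdqq : ∀ n, (if q ∣ n then (q : ℂ) else 0) =
      ∑ b ∈ range q, ee ((b : ℝ) / q * (n : ℝ)) := by
    intro n
    have h1 := hDQF q n hq.one_le
    have h2 : (if q ∣ n then (q : ℂ) else 0) = DD q n + 1 := by
      unfold DD
      ring
    have h3 : range q = insert 0 (Ico 1 q) := by
      ext b
      simp only [Finset.mem_range, Finset.mem_insert, Finset.mem_Ico]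
      have := hq.pos
      omega
    rw [h2, h1, h3, Finset.sum_insert (by simp)]
    have h4 : ee (((0 : ℕ) : ℝ) / q * (n : ℝ)) = 1 := by
      have := ee_int 0
      simpa using this
    rw [h4]
    ring
  constructor
  · have e1 : ∀ x, (if q ∣ a + x then (q : ℂ) else 0) * DD p (a + x) *
        ee (γ * ((a + x : ℕ) : ℝ)) =
        ∑ i ∈ range q ×ˢ Ico 1 p, ee (f i * ((a + x : ℕ) : ℝ)) := by
      intro x
      rw [mul_assoc, hdqp, hdqq, Finset.sum_mul_sum, Finset.sum_product]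
      refine Finset.sum_congr rfl fun b _ => ?_
      refine Finset.sum_congr rfl fun c _ => ?_
      rw [← ee_add, hf]
      congr 1
      ring
    rw [Finset.sum_congr rfl fun x _ => e1 x]
    refine small_family hESM N a hN _ f (fun i hi => hfn i (Finset.mem_product.1 hi).2) ?_
    rw [Finset.card_product, Finset.card_range]
    push_cast
    exact (mul_le_mul_of_nonneg_left hIcop (Nat.cast_nonneg q)).trans hprod
  · have e1 : ∀ x, DD p (a + x) * ee (γ * ((a + x : ℕ) : ℝ)) =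
        ∑ i ∈ range 1 ×ˢ Ico 1 p, ee (f i * ((a + x : ℕ) : ℝ)) := by
      intro x
      rw [hdqp, Finset.sum_product, Finset.sum_range_one]
      refine Finset.sum_congr rfl fun c _ => ?_
      rw [hf]
      congr 1
      push_cast
      ring
    rw [Finset.sum_congr rfl fun x _ => e1 x]
    refine small_family hESM N a hN _ f (fun i hi => hfn i (Finset.mem_product.1 hi).2) ?_
    rw [Finset.card_product, Finset.card_range, one_mul]
    exact hIcop.trans hp1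

end Pool.Agent.H88.BT
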